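import Mathlib
import Pool.Agent.H223.TM.Defs
import Pool.Agent.H491R2.EM_MN1

set_option autoImplicit false

/-!
Twelfth moment project (helper223): elementary tools for the Dirichlet integrals of N3c and N3d
(helper656).
-/

namespace Pool.Agent.H656R2.TM

open Finset Filter Topology MeasureTheory
open Pool.Agent.H306R2 Pool.Agent.H491R2.EMMN1

noncomputable section

/-- `x ^ k / k!` on `x > 0` -/
def pw (k : ℕ) (x : ℝ) : ℝ := if 0 < x then x ^ k / (k.factorial : ℝ) else 0

/-- indicator of `x ≥ 0` -/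
def hw (x : ℝ) : ℝ := if 0 ≤ x then 1 else 0

lemma gd_pw (k : ℕ) (x : ℝ) : gd ((k : ℝ) + 1) x = pw k x := gd_nat k x

lemma pw_meas (k : ℕ) : Measurable (pw k) := by
  unfold pw
  exact Measurable.ite measurableSet_Ioi (by fun_prop) measurable_const

lemma hw_meas : Measurable hw := by
  unfold hw
  exact Measurable.ite measurableSet_Ici measurable_const measurable_const

lemma pw_pos {k : ℕ} {x : ℝ} (h : 0 < x) : pw k x = x ^ k / (k.factorial : ℝ) := if_pos h

lemma pw_zero {k : ℕ} {x : ℝ} (h : x ≤ 0) : pw k x = 0 := if_neg (not_lt.mpr h)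

lemma pw_nonneg (k : ℕ) (x : ℝ) : 0 ≤ pw k x := by
  unfold pw
  split_ifs with h
  · positivity
  · exact le_refl _

lemma pw_le_one {k : ℕ} {x : ℝ} (h : x ≤ 1) : pw k x ≤ 1 := by
  unfold pw
  split_ifs with h0
  · rw [div_le_one (by positivity)]
    calc x ^ k ≤ 1 := pow_le_one₀ h0.le h
      _ ≤ (k.factorial : ℝ) := by exact_mod_cast Nat.succ_le_of_lt k.factorial_pos
  · exact zero_le_one

lemma hw_nonneg (x : ℝ) : 0 ≤ hw x := by unfold hw; split_ifs <;> norm_num

lemma hw_le_one (x : ℝ) : hw x ≤ 1 := by unfold hw; split_ifs <;> norm_num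

lemma pw_one (k : ℕ) : pw k 1 = 1 / (k.factorial : ℝ) := by
  rw [pw_pos one_pos, one_pow]

/-- the beta integral -/
lemma beta_int (b : ℕ) : ∀ (a : ℕ) (s : ℝ),
    ∫ x in (0:ℝ)..s, x ^ a / (a.factorial : ℝ) * ((s - x) ^ b / (b.factorial : ℝ)) =
      s ^ (a + b + 1) / ((a + b + 1).factorial : ℝ) := by
  induction b with
  | zero =>
    intro a s
    simp only [pow_zero, Nat.factorial_zero, Nat.cast_one, div_one, mul_one, add_zero]
    rw [intervalIntegral.integral_div, integral_pow]
    rw [Nat.factorial_succ]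
    push_cast
    have : (a.factorial : ℝ) ≠ 0 := by positivity
    have h2 : (a : ℝ) + 1 ≠ 0 := by positivity
    field_simp
    simp
  | succ b ih =>
    intro a s
    have hu : ∀ x : ℝ, HasDerivAt (fun x : ℝ => (s - x) ^ (b + 1) / ((b + 1).factorial : ℝ))
        (-((s - x) ^ b / (b.factorial : ℝ))) x := by
      intro x
      have h1 : HasDerivAt (fun x : ℝ => s - x) (-1) x := by
        simpa using (hasDerivAt_id x).const_sub s
      have h2 : HasDerivAt (fun x : ℝ => (s - x) ^ (b + 1) / ((b + 1).factorial : ℝ))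
          (((b + 1 : ℕ) : ℝ) * (s - x) ^ b * (-1) / ((b + 1).factorial : ℝ)) x := by
        have := (h1.fun_pow (b + 1)).div_const ((b + 1).factorial : ℝ)
        simpa using this
      refine h2.congr_deriv ?_
      rw [Nat.factorial_succ]
      push_cast
      have : (b.factorial : ℝ) ≠ 0 := by positivity
      have h3 : (b : ℝ) + 1 ≠ 0 := by positivity
      field_simp
    have hv : ∀ x : ℝ, HasDerivAt (fun x : ℝ => x ^ (a + 1) / ((a + 1).factorial : ℝ))
        (x ^ a / (a.factorial : ℝ)) x := by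
      intro x
      have h2 : HasDerivAt (fun x : ℝ => x ^ (a + 1) / ((a + 1).factorial : ℝ))
          (((a + 1 : ℕ) : ℝ) * x ^ a * 1 / ((a + 1).factorial : ℝ)) x := by
        have := ((hasDerivAt_id x).fun_pow (a + 1)).div_const ((a + 1).factorial : ℝ)
        simpa using this
      refine h2.congr_deriv ?_
      rw [Nat.factorial_succ]
      push_cast
      have : (a.factorial : ℝ) ≠ 0 := by positivity
      have h3 : (a : ℝ) + 1 ≠ 0 := by positivity
      field_simp
    have h := intervalIntegral.integral_mul_deriv_eq_deriv_mul (a := 0) (b := s)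
      (fun x _ => hu x) (fun x _ => hv x)
      (Continuous.intervalIntegrable (by fun_prop) _ _)
      (Continuous.intervalIntegrable (by fun_prop) _ _)
    have e1 : ∀ x : ℝ, x ^ a / (a.factorial : ℝ) * ((s - x) ^ (b + 1) / ((b + 1).factorial : ℝ)) =
        (s - x) ^ (b + 1) / ((b + 1).factorial : ℝ) * (x ^ a / (a.factorial : ℝ)) :=
      fun x => mul_comm _ _
    simp only [e1]
    rw [h]
    have e2 : ∀ x : ℝ, -((s - x) ^ b / (b.factorial : ℝ)) * (x ^ (a + 1) / ((a + 1).factorial : ℝ)) =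
        -(x ^ (a + 1) / ((a + 1).factorial : ℝ) * ((s - x) ^ b / (b.factorial : ℝ))) :=
      fun x => by ring
    simp only [e2]
    rw [intervalIntegral.integral_neg, ih (a + 1) s]
    simp only [sub_self, sub_zero, ne_eq, Nat.add_eq_zero_iff, one_ne_zero, and_false,
      not_false_eq_true, zero_pow, zero_div, zero_mul, mul_zero, zero_sub, neg_neg, zero_add]
    rw [show a + 1 + b + 1 = a + (b + 1) + 1 by ring]

lemma conv (a b : ℕ) (s : ℝ) : ∫ x, pw a x * pw b (s - x) = pw (a + b + 1) s := by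
  rcases le_or_gt s 0 with h | h
  · rw [pw_zero h]
    have : ∀ x, pw a x * pw b (s - x) = 0 := by
      intro x
      rcases le_or_gt x 0 with hx | hx
      · rw [pw_zero hx, zero_mul]
      · rw [pw_zero (by linarith : s - x ≤ 0), mul_zero]
    simp only [this, integral_zero]
  · rw [pw_pos h, ← beta_int b a s]
    refine cutint h.le fun x => ?_
    by_cases h1 : 0 < x ∧ x < s
    · rw [if_pos h1, pw_pos h1.1, pw_pos (by linarith [h1.2] : 0 < s - x)]
    · rw [if_neg h1]
      rcases le_or_gt x 0 with hx | hx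
      · rw [pw_zero hx, zero_mul]
      · rw [pw_zero (x := s - x), mul_zero]
        by_contra hc
        exact h1 ⟨hx, by linarith⟩

lemma conv_h (a : ℕ) (s : ℝ) : ∫ x, pw a x * hw (s - x) = pw (a + 1) s := by
  have h0 := conv a 0 s
  rw [add_zero] at h0
  rw [← h0]
  refine integral_congr_ae ?_
  have : ∀ᵐ x : ℝ, x ≠ s := by
    simp [ae_iff]
  filter_upwards [this] with x hx
  congr 1
  unfold hw pw
  rw [pow_zero, Nat.factorial_zero, Nat.cast_one, div_one]
  by_cases h : 0 ≤ s - x
  · rw [if_pos h, if_pos]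
    exact lt_of_le_of_ne h (fun h' => hx (by linarith))
  · rw [if_neg h, if_neg (fun h' => h h'.le)]

lemma integrable_of_bd {f : ℝ → ℝ} (hf : Measurable f) (C R : ℝ)
    (h : ∀ x, |f x| ≤ C ∧ (f x ≠ 0 → |x| ≤ R)) : Integrable f := by
  have h1 : Integrable ((Set.Icc (-R) R).indicator (fun _ => C)) := by
    rw [integrable_indicator_iff measurableSet_Icc]
    exact integrableOn_const isCompact_Icc.measure_lt_top.ne
  refine h1.mono' hf.aestronglyMeasurable (Eventually.of_forall fun u => ?_)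
  rw [Real.norm_eq_abs]
  by_cases hu : f u = 0
  · rw [hu, abs_zero]
    exact Set.indicator_nonneg (fun x _ => (abs_nonneg _).trans (h x).1) u
  · rw [Set.indicator_of_mem]
    · exact (h u).1
    · exact abs_le.mp ((h u).2 hu)

lemma pw_le_pow {k : ℕ} {x R : ℝ} (hR : 0 ≤ R) (h : x ≤ R) : pw k x ≤ R ^ k := by
  unfold pw
  split_ifs with h0
  · rw [div_le_iff₀ (by positivity)]
    calc x ^ k ≤ R ^ k := pow_le_pow_left₀ h0.le h k
      _ ≤ R ^ k * (k.factorial : ℝ) := by
        refine le_mul_of_one_le_right (by positivity) ?_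
        exact_mod_cast Nat.succ_le_of_lt k.factorial_pos
  · positivity

lemma conv_integrable (a b : ℕ) (s : ℝ) : Integrable (fun x => pw a x * pw b (s - x)) := by
  refine integrable_of_bd ((pw_meas a).mul ((pw_meas b).comp (by fun_prop)))
    (|s| ^ a * |s| ^ b) |s| fun x => ⟨?_, ?_⟩
  · rw [abs_of_nonneg (mul_nonneg (pw_nonneg _ _) (pw_nonneg _ _))]
    rcases le_or_gt x 0 with hx | hx
    · rw [pw_zero hx, zero_mul]; positivity
    · rcases le_or_gt (s - x) 0 with hx2 | hx2
      · rw [pw_zero hx2, mul_zero]; positivity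
      · have h3 := le_abs_self s
        exact mul_le_mul (pw_le_pow (abs_nonneg _) (by linarith))
          (pw_le_pow (abs_nonneg _) (by linarith)) (pw_nonneg _ _) (by positivity)
  · intro hx
    have h1 : 0 < x := by
      by_contra hc
      exact hx (by rw [pw_zero (not_lt.mp hc), zero_mul])
    have h2 : 0 < s - x := by
      by_contra hc
      exact hx (by rw [pw_zero (not_lt.mp hc), mul_zero])
    rw [abs_of_pos h1]
    have h3 := le_abs_self s
    linarith

lemma fub' {n : ℕ} {F : (Fin (n + 1) → ℝ) → ℝ} (h : Integrable F) (k : Fin (n + 1)) :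
    ∫ u, F u = ∫ x, ∫ v : Fin n → ℝ, F (k.insertNth x v) := by
  have hmp := volume_preserving_piFinSuccAbove (fun _ : Fin (n + 1) => ℝ) k
  set e := MeasurableEquiv.piFinSuccAbove (fun _ : Fin (n + 1) => ℝ) k with he
  have h1 := (hmp.symm e).integral_comp' (g := F)
  have hint2 : Integrable (fun p : ℝ × (Fin n → ℝ) => F (e.symm p)) :=
    ((hmp.symm e).integrable_comp_emb e.symm.measurableEmbedding (g := F)).mpr h
  rw [← h1]
  rw [Measure.volume_eq_prod] at hint2 ⊢
  rw [integral_prod _ hint2]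
  rfl

/-- two-dimensional Dirichlet integral -/
lemma E2 (a b : ℕ) (s : ℝ) :
    ∫ w : Fin 2 → ℝ, pw a (w 0) * pw b (w 1) * hw (s - w 0 - w 1) = pw (a + b + 2) s := by
  set F : (Fin 2 → ℝ) → ℝ := fun w => pw a (w 0) * pw b (w 1) * hw (s - w 0 - w 1) with hF
  have hn : Nice F := by
    refine ⟨?_, |s| ^ a * |s| ^ b, |s|, fun u => ?_⟩
    · exact (((pw_meas a).comp (measurable_pi_apply 0)).mul
        ((pw_meas b).comp (measurable_pi_apply 1))).mul (hw_meas.comp (by fun_prop))
    · have h3 := le_abs_self s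
      have key : F u ≠ 0 → 0 < u 0 ∧ 0 < u 1 ∧ u 0 + u 1 ≤ s := by
        intro hu
        refine ⟨?_, ?_, ?_⟩
        · by_contra hc
          exact hu (by rw [hF]; simp only; rw [pw_zero (not_lt.mp hc)]; ring)
        · by_contra hc
          exact hu (by rw [hF]; simp only; rw [pw_zero (k := b) (not_lt.mp hc)]; ring)
        · by_contra hc
          refine hu ?_
          have : hw (s - u 0 - u 1) = 0 := by
            unfold hw
            rw [if_neg]
            intro h; exact hc (by linarith)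
          rw [hF]; simp only; rw [this, mul_zero]
      constructor
      · by_cases hu : F u = 0
        · rw [hu, abs_zero]; positivity
        · obtain ⟨k1, k2, k4⟩ := key hu
          rw [hF]
          simp only
          rw [abs_of_nonneg (mul_nonneg (mul_nonneg (pw_nonneg _ _) (pw_nonneg _ _))
            (hw_nonneg _))]
          calc pw a (u 0) * pw b (u 1) * hw (s - u 0 - u 1)
              ≤ |s| ^ a * |s| ^ b * 1 := by
                refine mul_le_mul (mul_le_mul (pw_le_pow (abs_nonneg _) (by linarith))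
                  (pw_le_pow (abs_nonneg _) (by linarith)) (pw_nonneg _ _) (by positivity))
                  (hw_le_one _) (hw_nonneg _) (by positivity)
            _ = _ := mul_one _
      · intro hu i
        obtain ⟨k1, k2, k4⟩ := key hu
        fin_cases i
        · show |u 0| ≤ |s|
          rw [abs_of_pos k1]; linarith
        · show |u 1| ≤ |s|
          rw [abs_of_pos k2]; linarith
  rw [fub' hn.integrable 0]
  have h1 : ∀ x : ℝ, ∫ v : Fin 1 → ℝ, F ((0 : Fin 2).insertNth x v) =
      pw a x * pw (b + 1) (s - x) := by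
    intro x
    have hn1 := hn.slice 0 x
    rw [fub' hn1.integrable 0]
    have h2 : ∀ y : ℝ, ∫ v : Fin 0 → ℝ, F ((0 : Fin 2).insertNth x ((0 : Fin 1).insertNth y v)) =
        pw a x * (pw b y * hw ((s - x) - y)) := by
      intro y
      rw [int0 _ (fun i => i.elim0), ins2, hF]
      simp only [Matrix.cons_val_zero, Matrix.cons_val_one]
      ring
    simp only [h2]
    rw [integral_const_mul, conv_h]
  simp only [h1]
  rw [conv]
  congr 1

/-- the Dirichlet weight -/
def Dn (a : Fin 3 → ℕ) (u : Fin 3 → ℝ) : ℝ := (∏ j, pw (a j) (u j)) * hw (1 - ∑ j, u j)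

lemma Dn_supp {a : Fin 3 → ℕ} {u : Fin 3 → ℝ} (h : Dn a u ≠ 0) :
    (∀ i, 0 < u i) ∧ ∑ j, u j ≤ 1 := by
  refine ⟨fun i => ?_, ?_⟩
  · by_contra hc
    apply h
    unfold Dn
    rw [prod_eq_zero (mem_univ i) (pw_zero (not_lt.mp hc)), zero_mul]
  · by_contra hc
    apply h
    unfold Dn hw
    rw [if_neg, mul_zero]
    intro h1; exact hc (by linarith)

lemma Dn_le1 {a : Fin 3 → ℕ} {u : Fin 3 → ℝ} (h : Dn a u ≠ 0) (i : Fin 3) : u i ≤ 1 := by
  obtain ⟨h1, h2⟩ := Dn_supp h
  exact (single_le_sum (fun j _ => (h1 j).le) (mem_univ i)).trans h2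

lemma Dn_nonneg (a : Fin 3 → ℕ) (u : Fin 3 → ℝ) : 0 ≤ Dn a u :=
  mul_nonneg (prod_nonneg fun _ _ => pw_nonneg _ _) (hw_nonneg _)

lemma Dn_le_one (a : Fin 3 → ℕ) (u : Fin 3 → ℝ) : Dn a u ≤ 1 := by
  by_cases h : Dn a u = 0
  · rw [h]; exact zero_le_one
  · have h1 := Dn_le1 h
    unfold Dn
    refine mul_le_one₀ ?_ (hw_nonneg _) (hw_le_one _)
    exact prod_le_one (fun _ _ => pw_nonneg _ _) fun i _ => pw_le_one (h1 i)

lemma Dn_meas (a : Fin 3 → ℕ) : Measurable (Dn a) := by
  unfold Dn
  refine Measurable.mul ?_ (hw_meas.comp (by fun_prop))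
  exact Finset.measurable_prod _ fun i _ => (pw_meas _).comp (measurable_pi_apply i)

lemma Dn_nice (a : Fin 3 → ℕ) : Nice (Dn a) := by
  refine ⟨Dn_meas a, 1, 1, fun u => ⟨?_, fun h i => ?_⟩⟩
  · rw [abs_of_nonneg (Dn_nonneg _ _)]; exact Dn_le_one _ _
  · rw [abs_of_pos ((Dn_supp h).1 i)]; exact Dn_le1 h i

/-- marginals of the Dirichlet weight -/
lemma marg (a : Fin 3 → ℕ) (i : Fin 3) (ψ : ℝ → ℝ)
    (hi : Integrable (fun u : Fin 3 → ℝ => ψ (u i) * Dn a u)) :
    ∫ u : Fin 3 → ℝ, ψ (u i) * Dn a u =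
      ∫ x, ψ x * (pw (a i) x * pw (a (i.succAbove 0) + a (i.succAbove 1) + 2) (1 - x)) := by
  rw [fub' hi i]
  congr 1
  funext x
  rw [← E2 (a (i.succAbove 0)) (a (i.succAbove 1)) (1 - x), ← integral_const_mul,
    ← integral_const_mul]
  congr 1
  funext v
  unfold Dn
  rw [Fin.prod_univ_succAbove _ i, Fin.sum_univ_succAbove _ i]
  simp only [Fin.insertNth_apply_same, Fin.insertNth_apply_succAbove, Fin.prod_univ_two,
    Fin.sum_univ_two]
  rw [show 1 - (x + (v 0 + v 1)) = 1 - x - v 0 - v 1 by ring]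
  ring

lemma Dn_int (a : Fin 3 → ℕ) : ∫ u : Fin 3 → ℝ, Dn a u =
    1 / ((a 0 + a 1 + a 2 + 3).factorial : ℝ) := by
  have h := marg a 0 (fun _ => 1) (by simpa using (Dn_nice a).integrable)
  simp only [one_mul] at h
  rw [h, conv, pw_one]
  have : a 0 + (a ((0 : Fin 3).succAbove 0) + a ((0 : Fin 3).succAbove 1) + 2) + 1 =
      a 0 + a 1 + a 2 + 3 := by
    have e1 : (0 : Fin 3).succAbove 0 = 1 := rfl
    have e2 : (0 : Fin 3).succAbove 1 = 2 := rfl
    rw [e1, e2]; ring
  rw [this]

end

end Pool.Agent.H656R2.TM
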