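import Mathlib

set_option autoImplicit false

/-!
Twelfth moment project (helper223): the rational numbers of N3c and N3d (helper656).
-/

namespace Pool.Agent.H656R2.TM

open Finset

/-- coefficients of `(1-x)^8/8! * x^3/3!` in the basis `x^(3+k)/(3+k)!` -/
def c1 (k : ℕ) : ℚ := (-1) ^ k * ((3 + k).factorial : ℚ) / (6 * (k.factorial : ℚ) * ((8 - k).factorial : ℚ))

/-- coefficients of `(1-x-y)^4/4! * x^3/3! * y^3/3!` in the basis `x^(3+j)/(3+j)! * y^(3+k)/(3+k)!` -/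
def c2 (p : ℕ × ℕ) : ℚ := (-1) ^ (p.1 + p.2) * ((3 + p.1).factorial : ℚ) * ((3 + p.2).factorial : ℚ) /
  (36 * (p.1.factorial : ℚ) * (p.2.factorial : ℚ) * ((4 - p.1 - p.2).factorial : ℚ))

/-- coefficients of `(1-x)^3/3! * x^a/a!` in the basis `x^(a+r)/(a+r)!` -/
def e1 (a r : ℕ) : ℚ := (-1) ^ r * ((a + r).factorial : ℚ) / ((a.factorial : ℚ) * (r.factorial : ℚ) * ((3 - r).factorial : ℚ))

/-- the exponents -/
def K2 : Finset (ℕ × ℕ) := {(0, 0), (0, 1), (0, 2), (0, 3), (0, 4), (1, 0), (1, 1), (1, 2), (1, 3),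
  (2, 0), (2, 1), (2, 2), (3, 0), (3, 1), (4, 0)}

set_option maxRecDepth 100000 in
theorem num1 : ∑ a ∈ range 9, ∑ b ∈ range 9, ∑ c ∈ range 9,
    c1 a * c1 b * c1 c * (1 / ((12 + a + b + c).factorial : ℚ)) =
    10505889518801 / 1771396794237624845085711657861120000000 := by
  decide +kernel

/-- the integral over `s, t ≥ 0`, `s + t ≤ 1` -/
def Iq (a b : ℕ) : ℚ := ∑ r ∈ range 4, ∑ q ∈ range 4, e1 a r * e1 b q *
  (1 / ((a + r + (b + q + 5) + 1).factorial : ℚ))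

set_option maxRecDepth 100000 in
theorem num2 : ∑ a ∈ K2, ∑ b ∈ K2, ∑ c ∈ K2, c2 a * c2 b * c2 c *
    ((1 / ((12 + a.1 + b.1 + c.1).factorial : ℚ)) * (1 / ((12 + a.2 + b.2 + c.2).factorial : ℚ))) =
    2464857719 / 689642800871155390189097975808000000 := by
  decide +kernel

set_option maxRecDepth 100000 in
theorem num3 : ∑ a ∈ K2, ∑ b ∈ K2, c2 a * c2 b * Iq (8 + a.1 + b.1) (8 + a.2 + b.2) =
    115473104399 / 1162479146218441304587498275471360000000 := by
  decide +kernel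

end Pool.Agent.H656R2.TM
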