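import Mathlib
import Pool.Agent.H656R2.TM_base
import Pool.Agent.H656R2.TM_num

set_option autoImplicit false

/-!
Twelfth moment project (helper223): N3c, the Dirichlet integral `Q1` (helper656).
-/

namespace Pool.Agent.H656R2.TM

open Finset Filter Topology MeasureTheory
open Pool.Agent.H306R2 Pool.Agent.H491R2.EMMN1

noncomputable section

lemma gd4pw (x : ℝ) : gd 4 x = pw 3 x := by
  have := gd_pw 3 x
  norm_num at this
  exact this

lemma gd5pw (x : ℝ) : gd 5 x = pw 4 x := by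
  have := gd_pw 4 x
  norm_num at this
  exact this

lemma gd9pw (x : ℝ) : gd 9 x = pw 8 x := by
  have := gd_pw 8 x
  norm_num at this
  exact this

lemma Gd444 (u : Fin 3 → ℝ) : Gd ![4, 4, 4] u = pw 3 (u 0) * pw 3 (u 1) * pw 3 (u 2) := by
  unfold Gd
  rw [Fin.prod_univ_three]
  simp only [Matrix.cons_val_zero, Matrix.cons_val_one, Matrix.cons_val]
  rw [gd4pw, gd4pw, gd4pw]

lemma poly1 {x : ℝ} (h0 : 0 < x) (h1 : x < 1) :
    pw 3 x * pw 8 (1 - x) = ∑ k ∈ range 9, (c1 k : ℝ) * pw (3 + k) x := by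
  simp only [pw_pos h0, pw_pos (by linarith : 0 < 1 - x)]
  simp only [Finset.sum_range_succ, Finset.sum_range_zero, c1]
  norm_num [Nat.factorial]
  ring

lemma expand3 {ι : Type} (K : Finset ι) (f g h : ι → ℝ) :
    (∑ a ∈ K, f a) * (∑ b ∈ K, g b) * (∑ c ∈ K, h c) =
      ∑ a ∈ K, ∑ b ∈ K, ∑ c ∈ K, f a * g b * h c := by
  rw [Finset.sum_mul_sum, Finset.sum_mul]
  refine sum_congr rfl fun a _ => ?_
  rw [Finset.sum_mul]
  refine sum_congr rfl fun b _ => ?_
  rw [Finset.mul_sum]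

lemma Dn3 (a b c : ℕ) (u : Fin 3 → ℝ) :
    Dn ![a, b, c] u = pw a (u 0) * pw b (u 1) * pw c (u 2) * hw (1 - (u 0 + u 1 + u 2)) := by
  unfold Dn
  rw [Fin.prod_univ_three, Fin.sum_univ_three]
  simp only [Matrix.cons_val_zero, Matrix.cons_val_one, Matrix.cons_val]

lemma Dn3_int (a b c : ℕ) : ∫ u : Fin 3 → ℝ, Dn ![a, b, c] u =
    1 / ((a + b + c + 3).factorial : ℝ) := by
  rw [Dn_int]
  simp only [Matrix.cons_val_zero, Matrix.cons_val_one, Matrix.cons_val]

theorem Q1_val : (∫ u : Fin 3 → ℝ, Gd ![4, 4, 4] u * ∏ i, gd 9 (1 - u i) *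
    (if u 0 + u 1 + u 2 ≤ 1 then 1 else 0)) =
      10505889518801 / 1771396794237624845085711657861120000000 := by
  have h1 : ∀ u : Fin 3 → ℝ, (Gd ![4, 4, 4] u * ∏ i, gd 9 (1 - u i) *
      (if u 0 + u 1 + u 2 ≤ 1 then 1 else 0)) =
      ∑ a ∈ range 9, ∑ b ∈ range 9, ∑ c ∈ range 9,
        ((c1 a : ℝ) * c1 b * c1 c) * Dn ![3 + a, 3 + b, 3 + c] u := by
    intro u
    rw [Gd444, Fin.prod_univ_three, gd9pw, gd9pw, gd9pw]
    by_cases hD : (∀ i, 0 < u i) ∧ u 0 + u 1 + u 2 ≤ 1
    · obtain ⟨hp, hs⟩ := hD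
      have p0 := hp 0
      have p1 := hp 1
      have p2 := hp 2
      rw [if_pos hs]
      have e0 := poly1 p0 (by linarith)
      have e1 := poly1 p1 (by linarith)
      have e2 := poly1 p2 (by linarith)
      calc _ = (pw 3 (u 0) * pw 8 (1 - u 0)) * (pw 3 (u 1) * pw 8 (1 - u 1)) *
            (pw 3 (u 2) * pw 8 (1 - u 2)) := by ring
        _ = _ := by
          rw [e0, e1, e2, expand3]
          refine sum_congr rfl fun a _ => sum_congr rfl fun b _ => sum_congr rfl fun c _ => ?_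
          rw [Dn3]
          have : hw (1 - (u 0 + u 1 + u 2)) = 1 := if_pos (by linarith)
          rw [this]
          ring
    · have hR : ∀ a b c : ℕ, Dn ![a, b, c] u = 0 := by
        intro a b c
        by_contra hc
        apply hD
        have := Dn_supp hc
        rw [Fin.sum_univ_three] at this
        exact this
      simp only [hR, mul_zero, sum_const_zero]
      by_cases hs : u 0 + u 1 + u 2 ≤ 1
      · have : ¬ ∀ i, 0 < u i := fun h => hD ⟨h, hs⟩
        push Not at this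
        obtain ⟨i, hi⟩ := this
        have h3 := pw_zero (k := 3) hi
        fin_cases i
        · have h3' : pw 3 (u 0) = 0 := h3
          rw [h3']; ring
        · have h3' : pw 3 (u 1) = 0 := h3
          rw [h3']; ring
        · have h3' : pw 3 (u 2) = 0 := h3
          rw [h3']; ring
      · rw [if_neg hs]; ring
  simp only [h1]
  have hI : ∀ a b c : ℕ, Integrable (fun u : Fin 3 → ℝ =>
      ((c1 a : ℝ) * c1 b * c1 c) * Dn ![3 + a, 3 + b, 3 + c] u) :=
    fun a b c => (Dn_nice _).integrable.const_mul _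
  rw [integral_finsetSum _ (fun a _ => integrable_finsetSum _ fun b _ =>
    integrable_finsetSum _ fun c _ => hI a b c)]
  have h2 : ∀ a : ℕ, (∫ u : Fin 3 → ℝ, ∑ b ∈ range 9, ∑ c ∈ range 9,
      ((c1 a : ℝ) * c1 b * c1 c) * Dn ![3 + a, 3 + b, 3 + c] u) =
      ∑ b ∈ range 9, ∑ c ∈ range 9,
        ((c1 a : ℝ) * c1 b * c1 c) * (1 / ((12 + a + b + c).factorial : ℝ)) := by
    intro a
    rw [integral_finsetSum _ (fun b _ => integrable_finsetSum _ fun c _ => hI a b c)]
    refine sum_congr rfl fun b _ => ?_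
    rw [integral_finsetSum _ (fun c _ => hI a b c)]
    refine sum_congr rfl fun c _ => ?_
    rw [integral_const_mul, Dn3_int]
    rw [show 3 + a + (3 + b) + (3 + c) + 3 = 12 + a + b + c by ring]
  simp only [h2]
  have h3 := congrArg (fun x : ℚ => (x : ℝ)) num1
  simp only [Rat.cast_sum, Rat.cast_mul, Rat.cast_div, Rat.cast_one, Rat.cast_natCast,
    Rat.cast_ofNat] at h3
  exact h3

end

end Pool.Agent.H656R2.TM
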