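import Mathlib
import Pool.Agent.H656R2.TM_N3c

set_option autoImplicit false

/-!
Twelfth moment project (helper223): N3d, the integral `Q2` (helper656).
-/

namespace Pool.Agent.H656R2.TM

open Finset Filter Topology MeasureTheory
open Pool.Agent.H306R2 Pool.Agent.H491R2.EMMN1

noncomputable section

/-- the polynomial `(1-x-y)^4/4!` -/
def qq (x y : ℝ) : ℝ := (1 - x - y) ^ 4 / 24

/-- its restriction to the part `x + y ≥ 1` of the unit square -/
def qt (x y : ℝ) : ℝ :=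
  if 0 ≤ x ∧ x ≤ 1 ∧ 0 ≤ y ∧ y ≤ 1 ∧ 1 ≤ x + y then (1 - x - y) ^ 4 / 24 else 0

lemma qt_meas : Measurable (fun p : ℝ × ℝ => qt p.1 p.2) := by
  unfold qt
  refine Measurable.ite ?_ (by fun_prop) measurable_const
  refine MeasurableSet.inter (measurableSet_le measurable_const measurable_fst) ?_
  refine MeasurableSet.inter (measurableSet_le measurable_fst measurable_const) ?_
  refine MeasurableSet.inter (measurableSet_le measurable_const measurable_snd) ?_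
  refine MeasurableSet.inter (measurableSet_le measurable_snd measurable_const) ?_
  exact measurableSet_le (f := fun _ : ℝ × ℝ => (1 : ℝ)) (g := fun p : ℝ × ℝ => p.1 + p.2)
    measurable_const (by fun_prop)

lemma qt_nonneg (x y : ℝ) : 0 ≤ qt x y := by
  unfold qt
  split_ifs <;> positivity

lemma qt_le_one (x y : ℝ) : qt x y ≤ 1 := by
  unfold qt
  split_ifs with h
  · obtain ⟨h1, h2, h3, h4, h5⟩ := h
    have h6 : (1 - x - y) ^ 2 ≤ 1 := by nlinarith
    have h7 : (1 - x - y) ^ 4 = ((1 - x - y) ^ 2) ^ 2 := by ring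
    rw [h7, div_le_one (by norm_num)]
    nlinarith [sq_nonneg (1 - x - y)]
  · exact zero_le_one

lemma poly2 {x y : ℝ} (h0 : 0 < x) (h1 : 0 < y) :
    pw 3 x * pw 3 y * qq x y = ∑ p ∈ K2, (c2 p : ℝ) * (pw (3 + p.1) x * pw (3 + p.2) y) := by
  simp only [pw_pos h0, pw_pos h1, qq, K2]
  norm_num [Nat.factorial, c2]
  ring

lemma poly3 (a : ℕ) {s : ℝ} (h0 : 0 < s) (h1 : s < 1) :
    pw 3 (1 - s) * pw a s = ∑ r ∈ range 4, (e1 a r : ℝ) * pw (a + r) s := by
  simp only [pw_pos h0, pw_pos (by linarith : 0 < 1 - s)]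
  have hk : ∀ r : ℕ, (e1 a r : ℝ) * (s ^ (a + r) / ((a + r).factorial : ℝ)) =
      (-1) ^ r / ((r.factorial : ℝ) * ((3 - r).factorial : ℝ)) * s ^ r * (s ^ a / (a.factorial : ℝ)) := by
    intro r
    unfold e1
    push_cast
    have h2 : ((a + r).factorial : ℝ) ≠ 0 := by positivity
    have h3 : (a.factorial : ℝ) ≠ 0 := by positivity
    have h4 : (r.factorial : ℝ) ≠ 0 := by positivity
    have h5 : ((3 - r).factorial : ℝ) ≠ 0 := by positivity
    rw [pow_add]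
    field_simp
  simp only [hk]
  rw [← Finset.sum_mul]
  congr 1
  simp only [Finset.sum_range_succ, Finset.sum_range_zero]
  norm_num [Nat.factorial]
  ring

lemma qt_refl {s t : ℝ} (hs : 0 < s) (ht : 0 < t) : qt (1 - s) (1 - t) = pw 4 (1 - s - t) := by
  unfold qt
  by_cases h : s + t < 1
  · rw [if_pos (by constructor <;> [linarith; constructor <;> [linarith; constructor <;>
      [linarith; constructor <;> linarith]]]), pw_pos (by linarith)]
    norm_num [Nat.factorial]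
    ring
  · rw [pw_zero (by linarith)]
    split_ifs with h1
    · obtain ⟨_, _, _, _, h5⟩ := h1
      have h6 : s + t = 1 := by linarith
      have : 1 - (1 - s) - (1 - t) = 0 := by linarith
      rw [this]; norm_num
    · rfl

lemma pt_id (a b : ℕ) (s t : ℝ) :
    qt (1 - s) (1 - t) * (pw 3 (1 - t) * pw b t) * (pw 3 (1 - s) * pw a s) =
      ∑ r ∈ range 4, ∑ q ∈ range 4, ((e1 a r : ℝ) * (e1 b q : ℝ)) *
        (pw (a + r) s * (pw (b + q) t * pw 4 ((1 - s) - t))) := by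
  rcases le_or_gt s 0 with hs | hs
  · simp only [pw_zero hs, mul_zero, zero_mul, sum_const_zero]
  rcases le_or_gt t 0 with ht | ht
  · simp only [pw_zero ht, mul_zero, zero_mul, sum_const_zero]
  rw [qt_refl hs ht]
  rcases le_or_gt (1 - s - t) 0 with h | h
  · simp only [pw_zero h, mul_zero, zero_mul, sum_const_zero]
  rw [poly3 a hs (by linarith), poly3 b ht (by linarith)]
  rw [mul_assoc, mul_comm (∑ r ∈ range 4, (e1 b r : ℝ) * pw (b + r) t), Finset.sum_mul_sum,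
    Finset.mul_sum]
  refine sum_congr rfl fun r _ => ?_
  rw [Finset.mul_sum]
  refine sum_congr rfl fun q _ => ?_
  ring

/-- the integral over the triangle -/
lemma Ival (a b : ℕ) :
    ∫ x, (∫ y, qt x y * (pw 3 y * pw b (1 - y))) * (pw 3 x * pw a (1 - x)) = (Iq a b : ℝ) := by
  rw [← integral_sub_left_eq_self (fun x => (∫ y, qt x y * (pw 3 y * pw b (1 - y))) *
    (pw 3 x * pw a (1 - x))) volume 1]
  have h1 : ∀ s : ℝ, (∫ y, qt (1 - s) y * (pw 3 y * pw b (1 - y))) *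
      (pw 3 (1 - s) * pw a (1 - (1 - s))) =
      ∑ r ∈ range 4, ∑ q ∈ range 4, ((e1 a r : ℝ) * (e1 b q : ℝ)) *
        (pw (a + r) s * pw (b + q + 4 + 1) (1 - s)) := by
    intro s
    rw [← integral_sub_left_eq_self (fun y => qt (1 - s) y * (pw 3 y * pw b (1 - y))) volume 1,
      ← integral_mul_const]
    simp only [sub_sub_cancel]
    simp only [pt_id]
    rw [integral_finsetSum]
    · refine sum_congr rfl fun r _ => ?_
      rw [integral_finsetSum]
      · refine sum_congr rfl fun q _ => ?_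
        rw [integral_const_mul, integral_const_mul, conv]
      · intro q _
        exact ((conv_integrable _ _ _).const_mul _).const_mul _
    · intro r _
      refine integrable_finsetSum _ fun q _ => ?_
      exact ((conv_integrable _ _ _).const_mul _).const_mul _
  simp only [h1]
  have hI : ∀ r q : ℕ, Integrable (fun s : ℝ => ((e1 a r : ℝ) * (e1 b q : ℝ)) *
        (pw (a + r) s * pw (b + q + 4 + 1) (1 - s))) :=
    fun r q => (conv_integrable _ _ _).const_mul _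
  rw [integral_finsetSum _ (fun r _ => integrable_finsetSum _ fun q _ => hI r q)]
  unfold Iq
  push_cast
  refine sum_congr rfl fun r _ => ?_
  rw [integral_finsetSum _ (fun q _ => hI r q)]
  refine sum_congr rfl fun q _ => ?_
  rw [integral_const_mul, conv, pw_one]

lemma int2 (i : Fin 3) (a b : Fin 3 → ℕ) :
    Integrable (fun u : (Fin 3 → ℝ) × (Fin 3 → ℝ) =>
      qt (u.1 i) (u.2 i) * (Dn a u.1 * Dn b u.2)) := by
  have h1 : Integrable (fun u : (Fin 3 → ℝ) × (Fin 3 → ℝ) => Dn a u.1 * Dn b u.2) := by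
    rw [Measure.volume_eq_prod]
    exact (Dn_nice a).integrable.mul_prod (Dn_nice b).integrable
  refine h1.mono' ?_ (Eventually.of_forall fun u => ?_)
  · refine Measurable.aestronglyMeasurable ?_
    refine Measurable.mul ?_ (((Dn_meas a).comp measurable_fst).mul ((Dn_meas b).comp measurable_snd))
    have h3 : Measurable (fun u : (Fin 3 → ℝ) × (Fin 3 → ℝ) => (u.1 i, u.2 i)) := by fun_prop
    exact qt_meas.comp h3
  · have h2 : 0 ≤ Dn a u.1 * Dn b u.2 := mul_nonneg (Dn_nonneg _ _) (Dn_nonneg _ _)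
    rw [Real.norm_eq_abs, abs_of_nonneg (mul_nonneg (qt_nonneg _ _) h2)]
    exact mul_le_of_le_one_left h2 (qt_le_one _ _)

lemma Jval (i : Fin 3) (a b : Fin 3 → ℕ) (ha : a i = 3) (hb : b i = 3) :
    ∫ u : (Fin 3 → ℝ) × (Fin 3 → ℝ), qt (u.1 i) (u.2 i) * (Dn a u.1 * Dn b u.2) =
      (Iq (a (i.succAbove 0) + a (i.succAbove 1) + 2) (b (i.succAbove 0) + b (i.succAbove 1) + 2) : ℝ) := by
  have h0 := int2 i a b
  rw [Measure.volume_eq_prod] at h0 ⊢
  rw [integral_prod _ h0]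
  have h1 : ∀ u : Fin 3 → ℝ, ∫ v : Fin 3 → ℝ, qt (u i) (v i) * (Dn a u * Dn b v) =
      (∫ y, qt (u i) y * (pw 3 y * pw (b (i.succAbove 0) + b (i.succAbove 1) + 2) (1 - y))) *
        Dn a u := by
    intro u
    have h2 : ∀ v : Fin 3 → ℝ, qt (u i) (v i) * (Dn a u * Dn b v) =
        (qt (u i) (v i) * Dn b v) * Dn a u := fun v => by ring
    simp only [h2]
    rw [integral_mul_const]
    congr 1
    have h3 := marg b i (qt (u i)) (by
      refine (Dn_nice b).integrable.mono' ?_ (Eventually.of_forall fun v => ?_)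
      · refine Measurable.aestronglyMeasurable ?_
        refine Measurable.mul ?_ (Dn_meas b)
        exact qt_meas.comp (measurable_const.prodMk (measurable_pi_apply i))
      · rw [Real.norm_eq_abs, abs_of_nonneg (mul_nonneg (qt_nonneg _ _) (Dn_nonneg _ _))]
        exact mul_le_of_le_one_left (Dn_nonneg _ _) (qt_le_one _ _))
    rw [hb] at h3
    exact h3
  have h4 := h0.integral_prod_left
  simp only [h1] at h4 ⊢
  have h5 := marg a i (fun x => ∫ y, qt x y *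
    (pw 3 y * pw (b (i.succAbove 0) + b (i.succAbove 1) + 2) (1 - y))) h4
  rw [ha] at h5
  rw [← Ival]
  exact h5

lemma expand2 {ι : Type} (K : Finset ι) (f g : ι → ℝ) :
    (∑ a ∈ K, f a) * (∑ b ∈ K, g b) = ∑ a ∈ K, ∑ b ∈ K, f a * g b := by
  rw [Finset.sum_mul_sum]

/-- the domain -/
def Dom (u : (Fin 3 → ℝ) × (Fin 3 → ℝ)) : Prop :=
  ((∀ i, 0 < u.1 i) ∧ u.1 0 + u.1 1 + u.1 2 ≤ 1) ∧ ((∀ i, 0 < u.2 i) ∧ u.2 0 + u.2 1 + u.2 2 ≤ 1)

/-- the polynomial part -/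
def FA (u : (Fin 3 → ℝ) × (Fin 3 → ℝ)) : ℝ := ∑ a ∈ K2, ∑ b ∈ K2, ∑ c ∈ K2,
  ((c2 a : ℝ) * c2 b * c2 c) * (Dn ![3 + a.1, 3 + b.1, 3 + c.1] u.1 *
    Dn ![3 + a.2, 3 + b.2, 3 + c.2] u.2)

/-- the corrections -/
def FB0 (u : (Fin 3 → ℝ) × (Fin 3 → ℝ)) : ℝ := ∑ a ∈ K2, ∑ b ∈ K2,
  ((c2 a : ℝ) * c2 b) * (qt (u.1 0) (u.2 0) * (Dn ![3, 3 + a.1, 3 + b.1] u.1 *
    Dn ![3, 3 + a.2, 3 + b.2] u.2))

def FB1 (u : (Fin 3 → ℝ) × (Fin 3 → ℝ)) : ℝ := ∑ a ∈ K2, ∑ b ∈ K2,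
  ((c2 a : ℝ) * c2 b) * (qt (u.1 1) (u.2 1) * (Dn ![3 + a.1, 3, 3 + b.1] u.1 *
    Dn ![3 + a.2, 3, 3 + b.2] u.2))

def FB2 (u : (Fin 3 → ℝ) × (Fin 3 → ℝ)) : ℝ := ∑ a ∈ K2, ∑ b ∈ K2,
  ((c2 a : ℝ) * c2 b) * (qt (u.1 2) (u.2 2) * (Dn ![3 + a.1, 3 + b.1, 3] u.1 *
    Dn ![3 + a.2, 3 + b.2, 3] u.2))

lemma FA_dom {u : (Fin 3 → ℝ) × (Fin 3 → ℝ)} (h : Dom u) : FA u =
    (pw 3 (u.1 0) * pw 3 (u.2 0) * qq (u.1 0) (u.2 0)) *
    (pw 3 (u.1 1) * pw 3 (u.2 1) * qq (u.1 1) (u.2 1)) *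
    (pw 3 (u.1 2) * pw 3 (u.2 2) * qq (u.1 2) (u.2 2)) := by
  obtain ⟨⟨hp, hs⟩, ⟨hp', hs'⟩⟩ := h
  rw [poly2 (hp 0) (hp' 0), poly2 (hp 1) (hp' 1), poly2 (hp 2) (hp' 2), expand3]
  unfold FA
  refine sum_congr rfl fun a _ => sum_congr rfl fun b _ => sum_congr rfl fun c _ => ?_
  rw [Dn3, Dn3]
  have h1 : hw (1 - (u.1 0 + u.1 1 + u.1 2)) = 1 := if_pos (by linarith)
  have h2 : hw (1 - (u.2 0 + u.2 1 + u.2 2)) = 1 := if_pos (by linarith)
  rw [h1, h2]
  ring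

lemma FB0_dom {u : (Fin 3 → ℝ) × (Fin 3 → ℝ)} (h : Dom u) : FB0 u =
    (pw 3 (u.1 0) * pw 3 (u.2 0) * qt (u.1 0) (u.2 0)) *
    ((pw 3 (u.1 1) * pw 3 (u.2 1) * qq (u.1 1) (u.2 1)) *
    (pw 3 (u.1 2) * pw 3 (u.2 2) * qq (u.1 2) (u.2 2))) := by
  obtain ⟨⟨hp, hs⟩, ⟨hp', hs'⟩⟩ := h
  rw [poly2 (hp 1) (hp' 1), poly2 (hp 2) (hp' 2), expand2, Finset.mul_sum]
  unfold FB0
  refine sum_congr rfl fun a _ => ?_
  rw [Finset.mul_sum]
  refine sum_congr rfl fun b _ => ?_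
  rw [Dn3, Dn3]
  have h1 : hw (1 - (u.1 0 + u.1 1 + u.1 2)) = 1 := if_pos (by linarith)
  have h2 : hw (1 - (u.2 0 + u.2 1 + u.2 2)) = 1 := if_pos (by linarith)
  rw [h1, h2]
  ring

lemma FB1_dom {u : (Fin 3 → ℝ) × (Fin 3 → ℝ)} (h : Dom u) : FB1 u =
    (pw 3 (u.1 1) * pw 3 (u.2 1) * qt (u.1 1) (u.2 1)) *
    ((pw 3 (u.1 0) * pw 3 (u.2 0) * qq (u.1 0) (u.2 0)) *
    (pw 3 (u.1 2) * pw 3 (u.2 2) * qq (u.1 2) (u.2 2))) := by
  obtain ⟨⟨hp, hs⟩, ⟨hp', hs'⟩⟩ := h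
  rw [poly2 (hp 0) (hp' 0), poly2 (hp 2) (hp' 2), expand2, Finset.mul_sum]
  unfold FB1
  refine sum_congr rfl fun a _ => ?_
  rw [Finset.mul_sum]
  refine sum_congr rfl fun b _ => ?_
  rw [Dn3, Dn3]
  have h1 : hw (1 - (u.1 0 + u.1 1 + u.1 2)) = 1 := if_pos (by linarith)
  have h2 : hw (1 - (u.2 0 + u.2 1 + u.2 2)) = 1 := if_pos (by linarith)
  rw [h1, h2]
  ring

lemma FB2_dom {u : (Fin 3 → ℝ) × (Fin 3 → ℝ)} (h : Dom u) : FB2 u =
    (pw 3 (u.1 2) * pw 3 (u.2 2) * qt (u.1 2) (u.2 2)) *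
    ((pw 3 (u.1 0) * pw 3 (u.2 0) * qq (u.1 0) (u.2 0)) *
    (pw 3 (u.1 1) * pw 3 (u.2 1) * qq (u.1 1) (u.2 1))) := by
  obtain ⟨⟨hp, hs⟩, ⟨hp', hs'⟩⟩ := h
  rw [poly2 (hp 0) (hp' 0), poly2 (hp 1) (hp' 1), expand2, Finset.mul_sum]
  unfold FB2
  refine sum_congr rfl fun a _ => ?_
  rw [Finset.mul_sum]
  refine sum_congr rfl fun b _ => ?_
  rw [Dn3, Dn3]
  have h1 : hw (1 - (u.1 0 + u.1 1 + u.1 2)) = 1 := if_pos (by linarith)
  have h2 : hw (1 - (u.2 0 + u.2 1 + u.2 2)) = 1 := if_pos (by linarith)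
  rw [h1, h2]
  ring

lemma Dn_notDom {u : (Fin 3 → ℝ) × (Fin 3 → ℝ)} (h : ¬ Dom u) (a b : Fin 3 → ℕ) :
    Dn a u.1 * Dn b u.2 = 0 := by
  by_contra hc
  obtain ⟨h1, h2⟩ := mul_ne_zero_iff.mp hc
  have h3 := Dn_supp h1
  have h4 := Dn_supp h2
  rw [Fin.sum_univ_three] at h3 h4
  exact h ⟨h3, h4⟩

lemma cut_eq {x y : ℝ} (hx : 0 < x) (hx1 : x ≤ 1) (hy : 0 < y) (hy1 : y ≤ 1) :
    pw 4 (1 - x - y) = qq x y - qt x y := by
  unfold qq qt
  rcases lt_or_ge (x + y) 1 with h | h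
  · rw [pw_pos (by linarith), if_neg (fun hc => by linarith [hc.2.2.2.2])]
    norm_num [Nat.factorial]
  · rw [pw_zero (by linarith), if_pos ⟨hx.le, hx1, hy.le, hy1, h⟩, sub_self]

lemma qt_ne {x y : ℝ} (h : qt x y ≠ 0) : 1 ≤ x + y := by
  unfold qt at h
  by_contra hc
  exact h (if_neg fun h1 => hc h1.2.2.2.2)

/-- the integrand -/
lemma main_pt (u : (Fin 3 → ℝ) × (Fin 3 → ℝ)) :
    Gd ![4, 4, 4] u.1 * Gd ![4, 4, 4] u.2 * ∏ i, gd 5 (1 - u.1 i - u.2 i) *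
      (if u.1 0 + u.1 1 + u.1 2 ≤ 1 ∧ u.2 0 + u.2 1 + u.2 2 ≤ 1 then 1 else 0) =
      FA u - FB0 u - FB1 u - FB2 u := by
  rw [Gd444, Gd444, Fin.prod_univ_three, gd5pw, gd5pw, gd5pw]
  by_cases hD : Dom u
  · rw [FA_dom hD, FB0_dom hD, FB1_dom hD, FB2_dom hD]
    obtain ⟨⟨hp, hs⟩, ⟨hp', hs'⟩⟩ := hD
    rw [if_pos ⟨hs, hs'⟩]
    have p0 := hp 0
    have p1 := hp 1
    have p2 := hp 2
    have p0' := hp' 0
    have p1' := hp' 1
    have p2' := hp' 2
    rw [cut_eq p0 (by linarith) p0' (by linarith), cut_eq p1 (by linarith) p1' (by linarith),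
      cut_eq p2 (by linarith) p2' (by linarith)]
    have z01 : qt (u.1 0) (u.2 0) * qt (u.1 1) (u.2 1) = 0 := by
      by_contra hc
      obtain ⟨h1, h2⟩ := mul_ne_zero_iff.mp hc
      linarith [qt_ne h1, qt_ne h2]
    have z02 : qt (u.1 0) (u.2 0) * qt (u.1 2) (u.2 2) = 0 := by
      by_contra hc
      obtain ⟨h1, h2⟩ := mul_ne_zero_iff.mp hc
      linarith [qt_ne h1, qt_ne h2]
    have z12 : qt (u.1 1) (u.2 1) * qt (u.1 2) (u.2 2) = 0 := by
      by_contra hc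
      obtain ⟨h1, h2⟩ := mul_ne_zero_iff.mp hc
      linarith [qt_ne h1, qt_ne h2]
    set Q0 := qt (u.1 0) (u.2 0)
    set Q1 := qt (u.1 1) (u.2 1)
    set Q2 := qt (u.1 2) (u.2 2)
    set P0 := qq (u.1 0) (u.2 0)
    set P1 := qq (u.1 1) (u.2 1)
    set P2 := qq (u.1 2) (u.2 2)
    linear_combination (pw 3 (u.1 0) * pw 3 (u.1 1) * pw 3 (u.1 2) *
      (pw 3 (u.2 0) * pw 3 (u.2 1) * pw 3 (u.2 2))) * ((P2 - Q2) * z01 + P1 * z02 + P0 * z12)
  · have hA : FA u = 0 := by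
      unfold FA
      simp only [Dn_notDom hD, mul_zero, sum_const_zero]
    have h0 : FB0 u = 0 := by
      unfold FB0
      simp only [Dn_notDom hD, mul_zero, sum_const_zero]
    have h1 : FB1 u = 0 := by
      unfold FB1
      simp only [Dn_notDom hD, mul_zero, sum_const_zero]
    have h2 : FB2 u = 0 := by
      unfold FB2
      simp only [Dn_notDom hD, mul_zero, sum_const_zero]
    rw [hA, h0, h1, h2]
    by_cases hs : u.1 0 + u.1 1 + u.1 2 ≤ 1 ∧ u.2 0 + u.2 1 + u.2 2 ≤ 1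
    · have h3 : (¬ ∀ i, 0 < u.1 i) ∨ (¬ ∀ i, 0 < u.2 i) := by
        by_contra hc
        push Not at hc
        exact hD ⟨⟨hc.1, hs.1⟩, ⟨hc.2, hs.2⟩⟩
      rcases h3 with h3 | h3
      · push Not at h3
        obtain ⟨i, hi⟩ := h3
        have h3 := pw_zero (k := 3) hi
        fin_cases i
        · have h3' : pw 3 (u.1 0) = 0 := h3
          rw [h3']; ring
        · have h3' : pw 3 (u.1 1) = 0 := h3
          rw [h3']; ring
        · have h3' : pw 3 (u.1 2) = 0 := h3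
          rw [h3']; ring
      · push Not at h3
        obtain ⟨i, hi⟩ := h3
        have h3 := pw_zero (k := 3) hi
        fin_cases i
        · have h3' : pw 3 (u.2 0) = 0 := h3
          rw [h3']; ring
        · have h3' : pw 3 (u.2 1) = 0 := h3
          rw [h3']; ring
        · have h3' : pw 3 (u.2 2) = 0 := h3
          rw [h3']; ring
    · rw [if_neg hs]; ring

lemma intA (k : ℝ) (a b : Fin 3 → ℕ) :
    Integrable (fun u : (Fin 3 → ℝ) × (Fin 3 → ℝ) => k * (Dn a u.1 * Dn b u.2)) := by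
  rw [Measure.volume_eq_prod]
  exact ((Dn_nice a).integrable.mul_prod (Dn_nice b).integrable).const_mul k

lemma FA_int : Integrable FA :=
  integrable_finsetSum _ fun _ _ => integrable_finsetSum _ fun _ _ =>
    integrable_finsetSum _ fun _ _ => intA _ _ _

lemma FA_val : ∫ u, FA u = 2464857719 / 689642800871155390189097975808000000 := by
  unfold FA
  rw [integral_finsetSum _ (fun a _ => integrable_finsetSum _ fun b _ =>
    integrable_finsetSum _ fun c _ => intA _ _ _)]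
  have h2 : ∀ a : ℕ × ℕ, (∫ u : (Fin 3 → ℝ) × (Fin 3 → ℝ), ∑ b ∈ K2, ∑ c ∈ K2,
      ((c2 a : ℝ) * c2 b * c2 c) * (Dn ![3 + a.1, 3 + b.1, 3 + c.1] u.1 *
        Dn ![3 + a.2, 3 + b.2, 3 + c.2] u.2)) =
      ∑ b ∈ K2, ∑ c ∈ K2, ((c2 a : ℝ) * c2 b * c2 c) *
        ((1 / ((12 + a.1 + b.1 + c.1).factorial : ℝ)) *
          (1 / ((12 + a.2 + b.2 + c.2).factorial : ℝ))) := by
    intro a
    rw [integral_finsetSum _ (fun b _ => integrable_finsetSum _ fun c _ => intA _ _ _)]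
    refine sum_congr rfl fun b _ => ?_
    rw [integral_finsetSum _ (fun c _ => intA _ _ _)]
    refine sum_congr rfl fun c _ => ?_
    rw [integral_const_mul, Measure.volume_eq_prod, integral_prod_mul, Dn3_int, Dn3_int]
    rw [show 3 + a.1 + (3 + b.1) + (3 + c.1) + 3 = 12 + a.1 + b.1 + c.1 by ring,
      show 3 + a.2 + (3 + b.2) + (3 + c.2) + 3 = 12 + a.2 + b.2 + c.2 by ring]
  simp only [h2]
  have h3 := congrArg (fun x : ℚ => (x : ℝ)) num2
  simp only [Rat.cast_sum, Rat.cast_mul, Rat.cast_div, Rat.cast_one, Rat.cast_natCast,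
    Rat.cast_ofNat] at h3
  exact h3

lemma num3R : ∑ a ∈ K2, ∑ b ∈ K2, ((c2 a : ℝ) * c2 b) *
    ((Iq (8 + a.1 + b.1) (8 + a.2 + b.2) : ℚ) : ℝ) =
      115473104399 / 1162479146218441304587498275471360000000 := by
  have h3 := congrArg (fun x : ℚ => (x : ℝ)) num3
  simp only [Rat.cast_sum, Rat.cast_mul, Rat.cast_div, Rat.cast_ofNat] at h3
  exact h3

lemma FB0_int : Integrable FB0 :=
  integrable_finsetSum _ fun _ _ => integrable_finsetSum _ fun _ _ => (int2 0 _ _).const_mul _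

lemma FB1_int : Integrable FB1 :=
  integrable_finsetSum _ fun _ _ => integrable_finsetSum _ fun _ _ => (int2 1 _ _).const_mul _

lemma FB2_int : Integrable FB2 :=
  integrable_finsetSum _ fun _ _ => integrable_finsetSum _ fun _ _ => (int2 2 _ _).const_mul _

lemma FB0_val : ∫ u, FB0 u = 115473104399 / 1162479146218441304587498275471360000000 := by
  rw [← num3R]
  unfold FB0
  rw [integral_finsetSum _ (fun a _ => integrable_finsetSum _ fun b _ => (int2 0 _ _).const_mul _)]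
  refine sum_congr rfl fun a _ => ?_
  rw [integral_finsetSum _ (fun b _ => (int2 0 _ _).const_mul _)]
  refine sum_congr rfl fun b _ => ?_
  rw [integral_const_mul, Jval 0 _ _ rfl rfl]
  have e1 : (0 : Fin 3).succAbove 0 = 1 := rfl
  have e2 : (0 : Fin 3).succAbove 1 = 2 := rfl
  rw [e1, e2]
  simp only [Matrix.cons_val_one, Matrix.cons_val]
  rw [show 3 + a.1 + (3 + b.1) + 2 = 8 + a.1 + b.1 by ring,
    show 3 + a.2 + (3 + b.2) + 2 = 8 + a.2 + b.2 by ring]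

lemma FB1_val : ∫ u, FB1 u = 115473104399 / 1162479146218441304587498275471360000000 := by
  rw [← num3R]
  unfold FB1
  rw [integral_finsetSum _ (fun a _ => integrable_finsetSum _ fun b _ => (int2 1 _ _).const_mul _)]
  refine sum_congr rfl fun a _ => ?_
  rw [integral_finsetSum _ (fun b _ => (int2 1 _ _).const_mul _)]
  refine sum_congr rfl fun b _ => ?_
  rw [integral_const_mul, Jval 1 _ _ rfl rfl]
  have e1 : (1 : Fin 3).succAbove 0 = 0 := rfl
  have e2 : (1 : Fin 3).succAbove 1 = 2 := rfl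
  rw [e1, e2]
  simp only [Matrix.cons_val_zero, Matrix.cons_val]
  rw [show 3 + a.1 + (3 + b.1) + 2 = 8 + a.1 + b.1 by ring,
    show 3 + a.2 + (3 + b.2) + 2 = 8 + a.2 + b.2 by ring]

lemma FB2_val : ∫ u, FB2 u = 115473104399 / 1162479146218441304587498275471360000000 := by
  rw [← num3R]
  unfold FB2
  rw [integral_finsetSum _ (fun a _ => integrable_finsetSum _ fun b _ => (int2 2 _ _).const_mul _)]
  refine sum_congr rfl fun a _ => ?_
  rw [integral_finsetSum _ (fun b _ => (int2 2 _ _).const_mul _)]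
  refine sum_congr rfl fun b _ => ?_
  rw [integral_const_mul, Jval 2 _ _ rfl rfl]
  have e1 : (2 : Fin 3).succAbove 0 = 0 := rfl
  have e2 : (2 : Fin 3).succAbove 1 = 1 := rfl
  rw [e1, e2]
  simp only [Matrix.cons_val_zero, Matrix.cons_val_one]
  rw [show 3 + a.1 + (3 + b.1) + 2 = 8 + a.1 + b.1 by ring,
    show 3 + a.2 + (3 + b.2) + 2 = 8 + a.2 + b.2 by ring]

theorem Q2_val : (∫ u : (Fin 3 → ℝ) × (Fin 3 → ℝ), Gd ![4, 4, 4] u.1 * Gd ![4, 4, 4] u.2 *
    ∏ i, gd 5 (1 - u.1 i - u.2 i) *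
    (if u.1 0 + u.1 1 + u.1 2 ≤ 1 ∧ u.2 0 + u.2 1 + u.2 2 ≤ 1 then 1 else 0)) =
      1450821515959 / 442849198559406211271427914465280000000 := by
  simp only [main_pt]
  have i1 : Integrable (fun u => FA u - FB0 u) := FA_int.sub FB0_int
  have i2 : Integrable (fun u => FA u - FB0 u - FB1 u) := i1.sub FB1_int
  rw [integral_sub i2 FB2_int, integral_sub i1 FB1_int, integral_sub FA_int FB0_int,
    FA_val, FB0_val, FB1_val, FB2_val]
  norm_num

end

end Pool.Agent.H656R2.TM
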